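import Mathlib

/-! Hermite interpolation of entire functions: existence, uniqueness and bounds. -/

namespace Pool.Agent.Work.MP_987215_an

open Polynomial

/-- the nodal polynomial of a multiset of nodes -/
noncomputable def nodal (s : Multiset ℂ) : Polynomial ℂ := (s.map (fun a => X - C a)).prod

lemma nodal_cons (a : ℂ) (s : Multiset ℂ) : nodal (a ::ₘ s) = (X - C a) * nodal s := by
  simp [nodal]

lemma nodal_zero : nodal 0 = 1 := by simp [nodal]

lemma nodal_add (s t : Multiset ℂ) : nodal (s + t) = nodal s * nodal t := by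
  simp [nodal]

lemma nodal_monic (s : Multiset ℂ) : (nodal s).Monic :=
  monic_multiset_prod_of_monic _ _ (fun a _ => monic_X_sub_C a)

lemma nodal_natDegree (s : Multiset ℂ) : (nodal s).natDegree = Multiset.card s := by
  simp [nodal]

lemma nodal_degree (s : Multiset ℂ) : (nodal s).degree = Multiset.card s := by
  rw [degree_eq_natDegree (nodal_monic s).ne_zero, nodal_natDegree]

/-- `IsInt s g p h`: `p` is the Hermite interpolant of `g` at `s`, with quotient `h`. -/
structure IsInt (s : Multiset ℂ) (g : ℂ → ℂ) (p : Polynomial ℂ) (h : ℂ → ℂ) : Prop where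
  deg : p.degree < (Multiset.card s : WithBot ℕ)
  diff : Differentiable ℂ h
  eq : ∀ x, g x = p.eval x + (nodal s).eval x * h x

lemma dvd_of_eq_mul (s : Multiset ℂ) : ∀ (q : Polynomial ℂ) (u : ℂ → ℂ), Continuous u →
    (∀ x, q.eval x = (nodal s).eval x * u x) → nodal s ∣ q := by
  induction s using Multiset.induction_on with
  | empty => intro q u _ _; rw [nodal_zero]; exact one_dvd q
  | cons a s ih =>
    intro q u hu h
    have hroot : q.IsRoot a := by
      rw [IsRoot.def, h a, nodal_cons]; simp
    obtain ⟨q1, rfl⟩ := dvd_iff_isRoot.mpr hroot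
    rw [nodal_cons]
    apply mul_dvd_mul_left
    apply ih q1 u hu
    have hc : Set.EqOn (fun x => q1.eval x) (fun x => (nodal s).eval x * u x) {a}ᶜ := by
      intro x hx
      have h1 := h x
      rw [nodal_cons] at h1
      simp only [eval_mul, eval_sub, eval_X, eval_C] at h1
      have hx' : x - a ≠ 0 := sub_ne_zero.mpr hx
      have : (x - a) * (q1.eval x) = (x - a) * ((nodal s).eval x * u x) := by
        rw [h1]; ring
      exact mul_left_cancel₀ hx' this
    have hd : Dense ({a}ᶜ : Set ℂ) := dense_compl_singleton a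
    have := Continuous.ext_on hd (by fun_prop) (by fun_prop) hc
    intro x
    exact congrFun this x

lemma IsInt.unique {s : Multiset ℂ} {g : ℂ → ℂ} {p p' : Polynomial ℂ} {h h' : ℂ → ℂ}
    (H : IsInt s g p h) (H' : IsInt s g p' h') : p = p' := by
  have hdvd : nodal s ∣ p - p' := by
    apply dvd_of_eq_mul s (p - p') (fun x => h' x - h x)
      (H'.diff.continuous.sub H.diff.continuous)
    intro x
    have h1 := H.eq x
    have h2 := H'.eq x
    rw [eval_sub]
    linear_combination h2 - h1
  have hz : p - p' = 0 := by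
    apply eq_zero_of_dvd_of_degree_lt hdvd
    rw [nodal_degree]
    exact lt_of_le_of_lt (degree_sub_le _ _) (max_lt H.deg H'.deg)
  exact sub_eq_zero.mp hz

/-- adding a node -/
lemma IsInt.cons {s : Multiset ℂ} {g : ℂ → ℂ} {p : Polynomial ℂ} {h : ℂ → ℂ}
    (H : IsInt s g p h) (a : ℂ) :
    IsInt (a ::ₘ s) g (p + C (h a) * nodal s) (dslope h a) := by
  refine ⟨?_, ?_, ?_⟩
  · rw [Multiset.card_cons]
    apply lt_of_le_of_lt (degree_add_le _ _)
    apply max_lt
    · apply lt_trans H.deg
      exact_mod_cast Nat.lt_succ_self _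
    · have h1 : (C (h a) * nodal s).degree ≤ 0 + (nodal s).degree :=
        (degree_mul_le _ _).trans (add_le_add_left degree_C_le _)
      rw [zero_add, nodal_degree] at h1
      apply lt_of_le_of_lt h1
      exact_mod_cast Nat.lt_succ_self _
  · have : DifferentiableOn ℂ (dslope h a) Set.univ :=
      (Complex.differentiableOn_dslope Filter.univ_mem).mpr H.diff.differentiableOn
    exact differentiableOn_univ.mp this
  · intro x
    have h1 := H.eq x
    have h2 := sub_smul_dslope h a x
    rw [smul_eq_mul] at h2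
    rw [nodal_cons, eval_add, eval_mul, eval_mul, eval_C, eval_sub, eval_X, eval_C]
    linear_combination h1 - (nodal s).eval x * h2

lemma iteratedDeriv_sub_mul {D : ℂ → ℂ} (hD : Differentiable ℂ D) (a : ℂ) (m : ℕ) :
    iteratedDeriv (m + 1) (fun u => (u - a) * D u) =
      fun u => (u - a) * iteratedDeriv (m + 1) D u + (m + 1) * iteratedDeriv m D u := by
  have hcd : ContDiff ℂ ⊤ D := hD.contDiff
  have hdiff : ∀ j : ℕ, Differentiable ℂ (iteratedDeriv j D) := by
    intro j
    exact hcd.differentiable_iteratedDeriv j (by exact_mod_cast WithTop.coe_lt_top _)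
  induction m with
  | zero =>
    funext u
    rw [iteratedDeriv_one]
    have h1 : HasDerivAt (fun u => (u - a) * D u) (1 * D u + (u - a) * deriv D u) u :=
      ((hasDerivAt_id u).sub_const a).mul (hD u).hasDerivAt
    rw [h1.deriv]
    simp [iteratedDeriv_one]
    ring
  | succ m ih =>
    rw [iteratedDeriv_succ, ih]
    funext u
    have h1 : HasDerivAt (fun u => (u - a) * iteratedDeriv (m + 1) D u +
        ((m : ℂ) + 1) * iteratedDeriv m D u)
        ((1 * iteratedDeriv (m + 1) D u + (u - a) * iteratedDeriv (m + 2) D u) +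
          ((m : ℂ) + 1) * iteratedDeriv (m + 1) D u) u := by
      have e1 : HasDerivAt (iteratedDeriv (m + 1) D) (iteratedDeriv (m + 2) D u) u := by
        rw [iteratedDeriv_succ (n := m + 1)]
        exact (hdiff (m + 1) u).hasDerivAt
      have e0 : HasDerivAt (iteratedDeriv m D) (iteratedDeriv (m + 1) D u) u := by
        rw [iteratedDeriv_succ (n := m)]
        exact (hdiff m u).hasDerivAt
      exact (((hasDerivAt_id u).sub_const a).mul e1).add (e0.const_mul _)
    rw [h1.deriv]
    push_cast
    ring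

lemma dslope_differentiable {h : ℂ → ℂ} (hh : Differentiable ℂ h) (a : ℂ) :
    Differentiable ℂ (dslope h a) := by
  have : DifferentiableOn ℂ (dslope h a) Set.univ :=
    (Complex.differentiableOn_dslope Filter.univ_mem).mpr hh.differentiableOn
  exact differentiableOn_univ.mp this

lemma iteratedDeriv_differentiable {h : ℂ → ℂ} (hh : Differentiable ℂ h) (m : ℕ) :
    Differentiable ℂ (iteratedDeriv m h) := by
  have hcd : ContDiff ℂ ⊤ h := hh.contDiff
  exact hcd.differentiable_iteratedDeriv m (by exact_mod_cast WithTop.coe_lt_top _)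

lemma hasDerivAt_iteratedDeriv {h : ℂ → ℂ} (hh : Differentiable ℂ h) (m : ℕ) (u : ℂ) :
    HasDerivAt (iteratedDeriv m h) (iteratedDeriv (m + 1) h u) u := by
  rw [iteratedDeriv_succ (n := m)]
  exact (iteratedDeriv_differentiable hh m u).hasDerivAt

/-- The `m`-th derivative of the difference quotient is bounded by the `(m+1)`-st derivative. -/
lemma norm_iteratedDeriv_dslope_le {h : ℂ → ℂ} (hh : Differentiable ℂ h) {K : Set ℂ}
    (hK : Convex ℝ K) {a w : ℂ} (ha : a ∈ K) (hw : w ∈ K) {B : ℝ} (m : ℕ)
    (hB : ∀ u ∈ K, ‖iteratedDeriv (m + 1) h u‖ ≤ B) :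
    ‖iteratedDeriv m (dslope h a) w‖ ≤ B / (m + 1) := by
  have hD := dslope_differentiable hh a
  set D := dslope h a with hDdef
  have hfun : h = fun u => h a + (u - a) * D u := by
    funext u
    have h2 := sub_smul_dslope h a u
    rw [smul_eq_mul] at h2
    rw [hDdef, h2]; ring
  have hder : ∀ u, iteratedDeriv (m + 1) h u =
      (u - a) * iteratedDeriv (m + 1) D u + (m + 1) * iteratedDeriv m D u := by
    intro u
    have h1 := congrFun (iteratedDeriv_sub_mul hD a m) u
    rw [← h1]
    conv_lhs => rw [hfun]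
    rw [iteratedDeriv_const_add (by omega)]
  -- path
  let c : ℝ → ℂ := fun τ => a + τ * (w - a)
  have hc : ∀ τ : ℝ, HasDerivAt c (w - a) τ := by
    intro τ
    have h1 : HasDerivAt (fun t : ℝ => (t : ℂ)) 1 τ := Complex.ofRealCLM.hasDerivAt
    have h2 := (h1.mul_const (w - a)).const_add a
    exact h2.congr_deriv (by simp)
  let ψ : ℝ → ℂ := fun τ => (τ : ℂ) ^ (m + 1) * iteratedDeriv m D (c τ)
  have hψ : ∀ τ : ℝ, HasDerivAt ψ ((τ : ℂ) ^ m * iteratedDeriv (m + 1) h (c τ)) τ := by
    intro τ
    have h1 : HasDerivAt (fun t : ℝ => (t : ℂ) ^ (m + 1)) (((m + 1 : ℕ) : ℂ) * (τ : ℂ) ^ m) τ := by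
      have h0 : HasDerivAt (fun t : ℝ => (t : ℂ)) 1 τ := Complex.ofRealCLM.hasDerivAt
      exact (h0.fun_pow (m + 1)).congr_deriv (by simp)
    have h2 : HasDerivAt (fun t : ℝ => iteratedDeriv m D (c t))
        (iteratedDeriv (m + 1) D (c τ) * (w - a)) τ := by
      exact (hasDerivAt_iteratedDeriv hD m (c τ)).comp_of_eq τ (hc τ) rfl
    have h3 := h1.mul h2
    refine h3.congr_deriv ?_
    rw [hder (c τ)]
    simp only [c]
    push_cast
    ring
  have hcK : ∀ τ ∈ Set.Icc (0 : ℝ) 1, c τ ∈ K := by
    intro τ hτ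
    have := hK ha hw (sub_nonneg.mpr hτ.2) hτ.1 (by ring)
    have e : (1 - τ) • a + τ • w = c τ := by
      simp only [c, Complex.real_smul]
      push_cast
      ring
    rwa [e] at this
  have key := image_norm_le_of_norm_deriv_right_le_deriv_boundary (a := (0 : ℝ)) (b := 1)
    (f := ψ) (f' := fun τ => (τ : ℂ) ^ m * iteratedDeriv (m + 1) h (c τ))
    (B := fun τ => B * τ ^ (m + 1) / (m + 1)) (B' := fun τ => τ ^ m * B)
    (fun τ _ => (hψ τ).continuousAt.continuousWithinAt)
    (fun τ _ => (hψ τ).hasDerivWithinAt)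
    (by simp [ψ])
    (by
      intro τ
      have h1 : HasDerivAt (fun t : ℝ => B * t ^ (m + 1) / (m + 1))
          (B * (((m + 1 : ℕ) : ℝ) * τ ^ m) / (m + 1)) τ := by
        have := ((hasDerivAt_pow (m + 1) τ).const_mul B).div_const ((m : ℝ) + 1)
        simpa using this
      refine h1.congr_deriv ?_
      have : (m : ℝ) + 1 ≠ 0 := by positivity
      push_cast
      field_simp)
    (by
      intro τ hτ
      rw [norm_mul, norm_pow, Complex.norm_real, Real.norm_of_nonneg hτ.1]
      apply mul_le_mul_of_nonneg_left _ (pow_nonneg hτ.1 _)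
      exact hB _ (hcK τ ⟨hτ.1, hτ.2.le⟩))
    (Set.right_mem_Icc.mpr zero_le_one)
  simpa [ψ, c] using key

/-- Existence of the Hermite interpolant, with bounds for derivatives of the quotient. -/
lemma exists_isInt {g : ℂ → ℂ} (hg : Differentiable ℂ g) {K : Set ℂ} (hK : Convex ℝ K)
    {M : ℝ} (s : Multiset ℂ) (hs : ∀ a ∈ s, a ∈ K) :
    ∀ m : ℕ, (∀ u ∈ K, ‖iteratedDeriv (m + Multiset.card s) g u‖ ≤ M) →
    ∃ p h, IsInt s g p h ∧ ∀ u ∈ K, ‖iteratedDeriv m h u‖ ≤
      M * m.factorial / (m + Multiset.card s).factorial := by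
  induction s using Multiset.induction_on with
  | empty =>
    intro m hM
    refine ⟨0, g, ⟨?_, hg, ?_⟩, ?_⟩
    · simp
    · intro x; simp [nodal_zero]
    · intro u hu
      have := hM u hu
      simp only [Multiset.card_zero, add_zero] at this ⊢
      rw [mul_div_assoc, div_self (by positivity), mul_one]
      exact this
  | cons a s ih =>
    intro m hM
    rw [Multiset.card_cons] at hM
    have hM' : ∀ u ∈ K, ‖iteratedDeriv ((m + 1) + Multiset.card s) g u‖ ≤ M := by
      intro u hu
      have := hM u hu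
      rwa [show m + (Multiset.card s + 1) = (m + 1) + Multiset.card s by ring] at this
    obtain ⟨p, h, hI, hb⟩ := ih (fun b hb => hs b (Multiset.mem_cons_of_mem hb)) (m + 1) hM'
    refine ⟨_, _, hI.cons a, ?_⟩
    intro u hu
    have := norm_iteratedDeriv_dslope_le hI.diff hK (hs a (Multiset.mem_cons_self a s)) hu m hb
    refine this.trans (le_of_eq ?_)
    rw [Multiset.card_cons, show m + (Multiset.card s + 1) = (m + 1) + Multiset.card s by ring,
      Nat.factorial_succ m]
    have : (m : ℝ) + 1 ≠ 0 := by positivity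
    push_cast
    field_simp

end Pool.Agent.Work.MP_987215_an
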