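import Pool.Agent.Work.MP_987215_an.Pairs

/-! The main induction and the passage to lists of nodes. -/

namespace Pool.Agent.Work.MP_987215_an

open Polynomial

lemma iteratedDeriv_eval (p : Polynomial ℂ) (k : ℕ) :
    iteratedDeriv k (fun x => p.eval x) = fun x => (derivative^[k] p).eval x := by
  induction k with
  | zero => simp
  | succ k ih =>
    rw [iteratedDeriv_succ, ih]
    funext x
    rw [Polynomial.deriv, Function.iterate_succ_apply']

lemma iteratedDeriv_eval_zero (p : Polynomial ℂ) (k : ℕ) :
    iteratedDeriv k (fun x => p.eval x) 0 = k.factorial * p.coeff k := by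
  rw [iteratedDeriv_eval]
  simp only
  rw [← coeff_zero_eq_eval_zero, coeff_iterate_derivative]
  simp [Nat.descFactorial_self]

lemma iteratedDeriv_sub_eval {g : ℂ → ℂ} (hg : Differentiable ℂ g) (p : Polynomial ℂ) (k : ℕ)
    (x : ℂ) : iteratedDeriv k (fun x => g x - p.eval x) x =
      iteratedDeriv k g x - iteratedDeriv k (fun x => p.eval x) x := by
  have h1 : ContDiffAt ℂ k g x := (hg.contDiff (n := k)).contDiffAt
  have h2 : ContDiffAt ℂ k (fun x => p.eval x) x :=
    (p.differentiable.contDiff (n := k)).contDiffAt
  exact iteratedDeriv_fun_sub h1 h2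

theorem good_all {g : ℂ → ℂ} (hg : Differentiable ℂ g) {M : ℝ} (hM0 : 0 ≤ M) {k N : ℕ}
    (hk : Even k) (hkN : k < 2 * N)
    (hM : ∀ u : ℂ, ‖u‖ ≤ 1 → ‖iteratedDeriv (2 * N) g u‖ ≤ M) :
    ∀ (μ : ℕ) (L : Multiset ℂ), Multiset.card L = N → (∀ z ∈ L, ‖z‖ ≤ 1 ∧ 0 ≤ z.re) →
      Multiset.card (L.filter (fun z => z.re ≠ 0)) +
        Multiset.card (L.filter (fun z => z ≠ 0)) = μ → Good k g M L := by
  classical
  intro μ
  induction μ using Nat.strong_induction_on with
  | _ μ ih =>
  intro L hcard hL hμ
  have hKconv : Convex ℝ (Metric.closedBall (0 : ℂ) 1) := convex_closedBall _ _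
  have hKc : ∀ u ∈ Metric.closedBall (0 : ℂ) 1, starRingEnd ℂ u ∈ Metric.closedBall (0 : ℂ) 1 := by
    intro u hu
    rw [mem_closedBall_zero_iff] at hu ⊢
    rwa [Complex.norm_conj]
  -- a general move
  have hstep : ∀ (A : Multiset ℂ) (z : ℂ), L = z ::ₘ A → (z.re ≠ 0 ∨ ((∀ a ∈ A, a.re = 0) ∧ z ≠ 0)) →
      Good k g M L := by
    intro A z hLA hcase
    have hzL := hL z (by rw [hLA]; exact Multiset.mem_cons_self z A)
    have hAL : ∀ a ∈ A, ‖a‖ ≤ 1 ∧ 0 ≤ a.re := fun a ha =>
      hL a (by rw [hLA]; exact Multiset.mem_cons_of_mem ha)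
    have hcA : Multiset.card A + 1 = N := by
      rw [← hcard, hLA, Multiset.card_cons]
    obtain ⟨s1, s2, s3⟩ := sign_pattern A (fun a ha => (hAL a ha).2)
    obtain ⟨j, hj⟩ := hk
    have hc0 : 0 ≤ (pairPoly A).coeff k := by
      have := s1 j
      rwa [show 2 * j = k by omega] at this
    -- the coefficient below
    have hc1 : (X * pairPoly A).coeff k ≤ 0 := by
      rcases j with _ | j
      · have : k = 0 := by omega
        subst this
        simp
      · have : k = (2 * j + 1) + 1 := by omega
        rw [this, coeff_X_mul]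
        exact s2 j
    have hc2 : (pairPoly A).coeff k = 0 → (X * pairPoly A).coeff k = 0 := by
      rcases j with _ | j
      · have : k = 0 := by omega
        subst this
        simp
      · have : k = (2 * j + 1) + 1 := by omega
        rw [this, coeff_X_mul]
        exact s3 j
    set κ : ℝ := (X * pairPoly A).coeff k / (pairPoly A).coeff k with hκ
    have hκ0 : κ ≤ 0 := div_nonpos_of_nonpos_of_nonneg hc1 hc0
    have hc : (X * pairPoly A).coeff k = κ * (pairPoly A).coeff k := by
      by_cases h0 : (pairPoly A).coeff k = 0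
      · rw [hc2 h0, h0, mul_zero]
      · rw [hκ, div_mul_cancel₀ _ h0]
    -- the ratio
    set s : ℝ := -κ / (z.re - κ) with hs
    have hden : 0 ≤ z.re - κ := by linarith [hzL.2]
    have hs0 : 0 ≤ s := div_nonneg (by linarith) hden
    have hs1 : s ≤ 1 := by
      rcases eq_or_lt_of_le hden with h | h
      · rw [hs, ← h, div_zero]; norm_num
      · rw [hs, div_le_one h]; linarith [hzL.2]
    have hprod : s * (z.re - κ) = -κ := by
      rcases eq_or_lt_of_le hden with h | h
      · have : κ = 0 := by linarith [hzL.2]
        rw [← h, this]; simp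
      · rw [hs, div_mul_cancel₀ _ h.ne']
    set w : ℂ := (κ : ℂ) + s * (z - κ) with hw
    have hwre : w.re = 0 := by
      simp only [hw, Complex.add_re, Complex.ofReal_re, Complex.mul_re, Complex.sub_re,
        Complex.ofReal_im, zero_mul, sub_zero]
      linarith
    have hwim : w.im = s * z.im := by simp [hw]
    have hwn : ‖w‖ ≤ 1 := by
      have h1 : ‖w‖ ≤ |w.re| + |w.im| := Complex.norm_le_abs_re_add_abs_im w
      rw [hwre, hwim, abs_zero, zero_add, abs_mul, abs_of_nonneg hs0] at h1
      have h2 : |z.im| ≤ ‖z‖ := Complex.abs_im_le_norm z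
      have h3 : s * |z.im| ≤ 1 * |z.im| := mul_le_mul_of_nonneg_right hs1 (abs_nonneg _)
      linarith [hzL.1]
    -- the new configuration is smaller
    have hgoodw : Good k g M (w ::ₘ A) := by
      refine ih _ ?_ (w ::ₘ A) (by rw [Multiset.card_cons]; exact hcA) ?_ rfl
      · rw [← hμ, hLA]
        have f1 : ∀ v : ℂ, v.re ≠ 0 → Multiset.card ((v ::ₘ A).filter (fun z => z.re ≠ 0)) =
            Multiset.card (A.filter (fun z => z.re ≠ 0)) + 1 := by
          intro v hv
          rw [Multiset.filter_cons_of_pos (p := fun z : ℂ => z.re ≠ 0) _ hv, Multiset.card_cons]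
        have f2 : ∀ v : ℂ, v.re = 0 → Multiset.card ((v ::ₘ A).filter (fun z => z.re ≠ 0)) =
            Multiset.card (A.filter (fun z => z.re ≠ 0)) := by
          intro v hv
          rw [Multiset.filter_cons_of_neg (p := fun z : ℂ => z.re ≠ 0) _ (by simpa using hv)]
        have f3 : ∀ v : ℂ, v ≠ 0 → Multiset.card ((v ::ₘ A).filter (fun z => z ≠ 0)) =
            Multiset.card (A.filter (fun z => z ≠ 0)) + 1 := by
          intro v hv
          rw [Multiset.filter_cons_of_pos (p := fun z : ℂ => z ≠ 0) _ hv, Multiset.card_cons]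
        have f4 : ∀ v : ℂ, v = 0 → Multiset.card ((v ::ₘ A).filter (fun z => z ≠ 0)) =
            Multiset.card (A.filter (fun z => z ≠ 0)) := by
          intro v hv
          rw [Multiset.filter_cons_of_neg (p := fun z : ℂ => z ≠ 0) _ (by simpa using hv)]
        have f5 : Multiset.card ((w ::ₘ A).filter (fun z => z ≠ 0)) ≤
            Multiset.card (A.filter (fun z => z ≠ 0)) + 1 := by
          by_cases hw0 : w = 0
          · rw [f4 w hw0]; omega
          · rw [f3 w hw0]
        by_cases hre : z.re = 0
        · rcases hcase with hre' | ⟨hA0, hz0⟩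
          · exact absurd hre hre'
          · -- all imaginary
            have hκz : κ = 0 := by
              rw [hκ]
              have : (X * pairPoly A).coeff k = 0 := by
                rcases j with _ | j
                · have : k = 0 := by omega
                  subst this
                  simp
                · have : k = (2 * j + 1) + 1 := by omega
                  rw [this, coeff_X_mul]
                  exact odd_coeff A hA0 j
              rw [this, zero_div]
            have hw0 : w = 0 := by
              apply Complex.ext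
              · rw [hwre]; rfl
              · rw [hwim, hs, hκz]; simp
            rw [f2 w hwre, f4 w hw0, f2 z hre, f3 z hz0]
            omega
        · have hz0 : z ≠ 0 := by
            intro h; apply hre; rw [h]; rfl
          rw [f2 w hwre, f1 z hre, f3 z hz0]
          omega
      · intro a ha
        rcases Multiset.mem_cons.mp ha with rfl | ha
        · exact ⟨hwn, hwre.ge⟩
        · exact hAL a ha
    rw [hLA]
    exact step hg hKconv hKc A
      (by
        intro u hu
        rw [show 2 + 2 * Multiset.card A = 2 * N by omega]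
        exact hM u (mem_closedBall_zero_iff.mp hu))
      (fun a ha => mem_closedBall_zero_iff.mpr (hAL a ha).1) z hs0 hs1
      (mem_closedBall_zero_iff.mpr hzL.1) (mem_closedBall_zero_iff.mpr hwn) hc0 hc hgoodw
  by_cases h1 : ∃ z ∈ L, z.re ≠ 0
  · obtain ⟨z, hz, hzre⟩ := h1
    obtain ⟨A, rfl⟩ := Multiset.exists_cons_of_mem hz
    exact hstep A z rfl (Or.inl hzre)
  · push Not at h1
    by_cases h2 : ∃ z ∈ L, z ≠ 0
    · obtain ⟨z, hz, hz0⟩ := h2
      obtain ⟨A, rfl⟩ := Multiset.exists_cons_of_mem hz
      exact hstep A z rfl (Or.inr ⟨fun a ha => h1 a (Multiset.mem_cons_of_mem ha), hz0⟩)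
    · push Not at h2
      -- all pairs are at zero
      intro p h hI
      have hLr : L = Multiset.replicate N 0 := Multiset.eq_replicate.mpr ⟨hcard, h2⟩
      have hnod : nodal (dbl L) = X ^ (2 * N) := by
        rw [hLr, dbl, Multiset.map_replicate, map_zero, ← Multiset.replicate_add, nodal,
          Multiset.map_replicate, Multiset.prod_replicate, C_0, sub_zero, two_mul]
      have hfun : (fun x => g x - p.eval x) = fun x => (x - 0) ^ (2 * N) • h x := by
        funext x
        have := hI.eq x
        rw [hnod, eval_pow, eval_X] at this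
        rw [this, sub_zero, smul_eq_mul]; ring
      have hzero : iteratedDeriv k (fun x => g x - p.eval x) 0 = 0 := by
        have hana : AnalyticAt ℂ (fun x => g x - p.eval x) 0 :=
          (hg.sub p.differentiable).analyticAt 0
        have hord : ((2 * N : ℕ) : ℕ∞) ≤ analyticOrderAt (fun x => g x - p.eval x) 0 := by
          rw [natCast_le_analyticOrderAt hana]
          exact ⟨h, hI.diff.analyticAt 0, Filter.Eventually.of_forall (fun x => congrFun hfun x)⟩
        exact (natCast_le_analyticOrderAt_iff_iteratedDeriv_eq_zero hana).mp hord k hkN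
      rw [iteratedDeriv_sub_eval hg, iteratedDeriv_eval_zero] at hzero
      rw [hzero, norm_zero]
      have hc0 : 0 ≤ (pairPoly L).coeff k := by
        obtain ⟨j, hj⟩ := hk
        have := (sign_pattern L (fun a ha => (hL a ha).2)).1 j
        rwa [show 2 * j = k by omega] at this
      positivity

end Pool.Agent.Work.MP_987215_an
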