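import Pool.Agent.Work.MP_987215_an.Hermite

/-! Moving a conjugate pair of nodes along a straight line through a real point. -/

namespace Pool.Agent.Work.MP_987215_an

open Polynomial

/-- the value at `κ` of the linear interpolant of `G` at `z` and its conjugate -/
noncomputable def lin (G : ℂ → ℂ) (z κ : ℂ) : ℂ :=
  G z + (κ - z) * dslope G z (starRingEnd ℂ z)

lemma fence {f : ℝ → ℂ} {f' : ℝ → ℂ} {B s : ℝ} (hs1 : s ≤ 1)
    (hf : ∀ τ ∈ Set.Icc s 1, HasDerivAt f (f' τ) τ)
    (hb : ∀ τ ∈ Set.Icc s 1, ‖f' τ‖ ≤ B * τ) :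
    ‖f 1 - f s‖ ≤ B / 2 * (1 - s ^ 2) := by
  have key := image_norm_le_of_norm_deriv_right_le_deriv_boundary (a := s) (b := 1)
    (f := fun τ => f τ - f s) (f' := f')
    (B := fun τ => B / 2 * (τ ^ 2 - s ^ 2)) (B' := fun τ => B * τ)
    (fun τ hτ => ((hf τ hτ).sub_const (f s)).continuousAt.continuousWithinAt)
    (fun τ hτ => ((hf τ ⟨hτ.1, hτ.2.le⟩).sub_const (f s)).hasDerivWithinAt)
    (by simp)
    (by
      intro τ
      have h1 := (((hasDerivAt_pow 2 τ).sub_const (s ^ 2)).const_mul (B / 2))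
      refine h1.congr_deriv ?_
      simp
      ring)
    (fun τ hτ => hb τ ⟨hτ.1, hτ.2.le⟩)
    (Set.right_mem_Icc.mpr hs1)
  simpa using key

lemma hasDerivAt_line (κ z : ℂ) (τ : ℝ) :
    HasDerivAt (fun τ : ℝ => κ + (τ : ℂ) * (z - κ)) (z - κ) τ := by
  have h1 : HasDerivAt (fun t : ℝ => (t : ℂ)) 1 τ := Complex.ofRealCLM.hasDerivAt
  exact ((h1.mul_const (z - κ)).const_add κ).congr_deriv (by simp)

lemma lin_move {G : ℂ → ℂ} (hG : Differentiable ℂ G) {K : Set ℂ} (hK : Convex ℝ K)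
    (hKc : ∀ u ∈ K, starRingEnd ℂ u ∈ K) {B : ℝ}
    (hB : ∀ u ∈ K, ‖iteratedDeriv 2 G u‖ ≤ B) {z : ℂ} {κ s : ℝ} (hs0 : 0 ≤ s) (hs1 : s ≤ 1)
    (hz : z ∈ K) (hw : (κ : ℂ) + s * (z - κ) ∈ K) :
    ‖lin G z κ - lin G (κ + s * (z - κ)) κ‖ ≤ (B * ‖z - κ‖ ^ 2) / 2 * (1 - s ^ 2) := by
  set zb := starRingEnd ℂ z with hzb
  let c : ℝ → ℂ := fun τ => κ + (τ : ℂ) * (z - κ)
  let cb : ℝ → ℂ := fun τ => κ + (τ : ℂ) * (zb - κ)
  have hcb : ∀ τ, starRingEnd ℂ (c τ) = cb τ := by
    intro τ
    simp [c, cb, hzb]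
  have hcK : ∀ τ ∈ Set.Icc s 1, c τ ∈ K := by
    intro τ hτ
    rcases eq_or_lt_of_le hs1 with h1 | h1
    · have : τ = 1 := le_antisymm hτ.2 (h1 ▸ hτ.1)
      subst this
      simpa [c] using hz
    · have hpos : 0 < 1 - s := sub_pos.mpr h1
      have h2 := hK hz hw (a := (τ - s) / (1 - s)) (b := (1 - τ) / (1 - s))
        (div_nonneg (sub_nonneg.mpr hτ.1) hpos.le) (div_nonneg (sub_nonneg.mpr hτ.2) hpos.le)
        (by field_simp; ring)
      have e : ((τ - s) / (1 - s)) • z + ((1 - τ) / (1 - s)) • ((κ : ℂ) + s * (z - κ)) = c τ := by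
        simp only [c, Complex.real_smul]
        have hne : (1 : ℂ) - s ≠ 0 := by
          have : ((1 - s : ℝ) : ℂ) ≠ 0 := Complex.ofReal_ne_zero.mpr hpos.ne'
          simpa using this
        push_cast
        field_simp
        ring
      rwa [e] at h2
  have hcbK : ∀ τ ∈ Set.Icc s 1, cb τ ∈ K := by
    intro τ hτ
    rw [← hcb]
    exact hKc _ (hcK τ hτ)
  have hdG : ∀ u, HasDerivAt G (deriv G u) u := fun u => (hG u).hasDerivAt
  have hd2 : ∀ u, HasDerivAt (deriv G) (iteratedDeriv 2 G u) u := by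
    intro u
    have := hasDerivAt_iteratedDeriv hG 1 u
    rwa [iteratedDeriv_one] at this
  have hc1 : c 1 = z := by simp [c]
  by_cases him : z.im = 0
  · -- real node
    have hzz : zb = z := by
      rw [hzb]; exact Complex.conj_eq_iff_im.mpr him
    have hlin : ∀ τ, lin G (c τ) κ = G (c τ) + (κ - c τ) * deriv G (c τ) := by
      intro τ
      have : starRingEnd ℂ (c τ) = c τ := by rw [hcb]; simp only [cb, c, hzz]
      rw [lin, this, dslope_same]
    have hder : ∀ τ : ℝ, HasDerivAt (fun τ : ℝ => lin G (c τ) κ)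
        (-(τ * (z - κ) ^ 2 * iteratedDeriv 2 G (c τ))) τ := by
      intro τ
      have hc := hasDerivAt_line κ z τ
      have h1 : HasDerivAt (fun τ : ℝ => G (c τ)) (deriv G (c τ) * (z - κ)) τ :=
        (hdG (c τ)).comp_of_eq τ hc rfl
      have h2 : HasDerivAt (fun τ : ℝ => deriv G (c τ)) (iteratedDeriv 2 G (c τ) * (z - κ)) τ :=
        (hd2 (c τ)).comp_of_eq τ hc rfl
      have h3 := h1.add ((hc.const_sub (κ : ℂ)).mul h2)
      have h4 : (fun τ : ℝ => lin G (c τ) κ) = fun τ => G (c τ) + (κ - c τ) * deriv G (c τ) := by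
        funext τ; exact hlin τ
      rw [h4]
      refine h3.congr_deriv ?_
      simp only [c]
      ring
    have := fence (B := B * ‖z - κ‖ ^ 2) hs1 (fun τ _ => hder τ) (by
      intro τ hτ
      have hτ0 : 0 ≤ τ := hs0.trans hτ.1
      rw [norm_neg, norm_mul, norm_mul, norm_pow, Complex.norm_real, Real.norm_of_nonneg hτ0]
      have := hB _ (hcK τ hτ)
      have hp : 0 ≤ τ * ‖z - κ‖ ^ 2 := by positivity
      nlinarith [mul_le_mul_of_nonneg_left this hp])
    rwa [hc1] at this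
  · -- non-real node
    have hne : zb - z ≠ 0 := by
      intro h
      apply him
      have h' : zb = z := sub_eq_zero.mp h
      exact Complex.conj_eq_iff_im.mp h'
    have hlin : ∀ τ : ℝ, lin G (c τ) κ =
        (G (c τ) * (zb - κ) - G (cb τ) * (z - κ)) / (zb - z) := by
      intro τ
      rw [lin, hcb]
      by_cases hτ : τ = 0
      · subst hτ
        have e1 : c 0 = κ := by simp [c]
        have e2 : cb 0 = κ := by simp [cb]
        rw [e1, e2]
        field_simp
        ring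
      · have hτ' : (τ : ℂ) ≠ 0 := Complex.ofReal_ne_zero.mpr hτ
        have hcc : cb τ ≠ c τ := by
          intro h
          have : (τ : ℂ) * (zb - z) = 0 := by
            simp only [c, cb] at h
            linear_combination h
          rcases mul_eq_zero.mp this with h | h
          · exact hτ' h
          · exact hne h
        rw [dslope_of_ne _ hcc, slope_def_field]
        have e : cb τ - c τ = τ * (zb - z) := by simp only [c, cb]; ring
        rw [e]
        have e3 : (κ : ℂ) - c τ = -(τ * (z - κ)) := by simp only [c]; ring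
        rw [e3]
        field_simp
        ring
    have hder : ∀ τ : ℝ, HasDerivAt (fun τ : ℝ => lin G (c τ) κ)
        ((z - κ) * (zb - κ) * (deriv G (c τ) - deriv G (cb τ)) / (zb - z)) τ := by
      intro τ
      have hc := hasDerivAt_line κ z τ
      have hc' := hasDerivAt_line κ zb τ
      have h1 : HasDerivAt (fun τ : ℝ => G (c τ)) (deriv G (c τ) * (z - κ)) τ :=
        (hdG (c τ)).comp_of_eq τ hc rfl
      have h2 : HasDerivAt (fun τ : ℝ => G (cb τ)) (deriv G (cb τ) * (zb - κ)) τ :=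
        (hdG (cb τ)).comp_of_eq τ hc' rfl
      have h3 := ((h1.mul_const (zb - κ)).sub (h2.mul_const (z - κ))).div_const (zb - z)
      have h4 : (fun τ : ℝ => lin G (c τ) κ) =
          fun τ => (G (c τ) * (zb - κ) - G (cb τ) * (z - κ)) / (zb - z) := by
        funext τ; exact hlin τ
      rw [h4]
      refine h3.congr_deriv ?_
      ring
    have hnorm : ‖zb - κ‖ = ‖z - κ‖ := by
      have : zb - κ = starRingEnd ℂ (z - κ) := by simp [hzb]
      rw [this, Complex.norm_conj]
    have := fence (B := B * ‖z - κ‖ ^ 2) hs1 (fun τ _ => hder τ) (by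
      intro τ hτ
      have hτ0 : 0 ≤ τ := hs0.trans hτ.1
      have h1 : ‖deriv G (c τ) - deriv G (cb τ)‖ ≤ B * ‖c τ - cb τ‖ :=
        Convex.norm_image_sub_le_of_norm_hasDerivWithin_le
          (fun u hu => (hd2 u).hasDerivWithinAt) hB hK (hcbK τ hτ) (hcK τ hτ)
      have e : c τ - cb τ = τ * (z - zb) := by simp only [c, cb]; ring
      rw [e, norm_mul, Complex.norm_real, Real.norm_of_nonneg hτ0] at h1
      have hn : ‖z - zb‖ = ‖zb - z‖ := norm_sub_rev _ _
      rw [hn] at h1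
      have hpos : 0 < ‖zb - z‖ := norm_pos_iff.mpr hne
      rw [norm_div, norm_mul, norm_mul, hnorm, div_le_iff₀ hpos]
      have hp : 0 ≤ ‖z - κ‖ * ‖z - κ‖ := by positivity
      nlinarith [mul_le_mul_of_nonneg_left h1 hp])
    rwa [hc1] at this

end Pool.Agent.Work.MP_987215_an
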