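import Pool.Agent.Work.MP_987215_an.Main

/-! Lists of nodes: self-conjugate lists are doubled multisets; Hermite conditions. -/

namespace Pool.Agent.Work.MP_987215_an

open Polynomial

lemma exists_pairs (Z : Multiset ℂ)
    (h1 : ∀ w : ℂ, w.im ≠ 0 → Z.count w = Z.count (starRingEnd ℂ w))
    (h2 : ∀ w : ℂ, w.im = 0 → Even (Z.count w)) : ∃ L : Multiset ℂ, Z = dbl L := by
  classical
  let f : ℂ → ℕ := fun w => if 0 < w.im then Z.count w else if w.im = 0 then Z.count w / 2 else 0
  let L : Multiset ℂ := ∑ w ∈ Z.toFinset, f w • ({w} : Multiset ℂ)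
  have hcount : ∀ v, L.count v = f v := by
    intro v
    simp only [L]
    rw [Multiset.count_sum']
    simp only [Multiset.count_nsmul, Multiset.count_singleton, mul_ite, mul_one, mul_zero]
    rw [Finset.sum_ite_eq]
    split_ifs with h
    · rfl
    · have h0 : Z.count v = 0 := by
        rw [Multiset.count_eq_zero]
        simpa using h
      simp only [f, h0]
      split_ifs <;> rfl
  refine ⟨L, ?_⟩
  ext v
  rw [dbl, Multiset.count_add, hcount]
  have hmap : (L.map (starRingEnd ℂ)).count v = f (starRingEnd ℂ v) := by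
    have hinj : Function.Injective (starRingEnd ℂ) := (starRingEnd ℂ).injective
    have := Multiset.count_map_eq_count' (starRingEnd ℂ) L hinj (starRingEnd ℂ v)
    rw [Complex.conj_conj] at this
    rw [this, hcount]
  rw [hmap]
  rcases lt_trichotomy v.im 0 with h | h | h
  · simp only [f, Complex.conj_im]
    rw [if_neg (by linarith), if_neg (by linarith), if_pos (by linarith), zero_add]
    exact h1 v h.ne
  · have hv : starRingEnd ℂ v = v := Complex.conj_eq_iff_im.mpr h
    rw [hv]
    simp only [f, h, lt_irrefl, if_false, if_true]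
    obtain ⟨c, hc⟩ := h2 v h
    rw [hc]
    omega
  · simp only [f, Complex.conj_im]
    rw [if_pos h, if_neg (by linarith), if_neg (by linarith), add_zero]

lemma order_sub_self (a : ℂ) : analyticOrderAt (fun x : ℂ => x - a) a = 1 := by
  have : AnalyticAt ℂ (fun x : ℂ => x - a) a := by fun_prop
  have h := (this.analyticOrderAt_eq_natCast (n := 1)).mpr
    ⟨fun _ => 1, analyticAt_const, one_ne_zero, Filter.Eventually.of_forall (fun x => by simp)⟩
  exact_mod_cast h

lemma order_sub_of_ne {a w : ℂ} (h : w ≠ a) : analyticOrderAt (fun x : ℂ => x - a) w = 0 := by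
  have : AnalyticAt ℂ (fun x : ℂ => x - a) w := by fun_prop
  exact this.analyticOrderAt_eq_zero.mpr (sub_ne_zero.mpr h)

lemma factor_of_order (Z : Multiset ℂ) : ∀ φ : ℂ → ℂ, Differentiable ℂ φ →
    (∀ w ∈ Z, ((Z.count w : ℕ) : ℕ∞) ≤ analyticOrderAt φ w) →
    ∃ h : ℂ → ℂ, Differentiable ℂ h ∧ ∀ x, φ x = (nodal Z).eval x * h x := by
  classical
  induction Z using Multiset.induction_on with
  | empty =>
    intro φ hφ _
    exact ⟨φ, hφ, fun x => by rw [nodal_zero]; simp⟩
  | cons a s ih =>
    intro φ hφ hord
    have ha := hord a (Multiset.mem_cons_self a s)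
    rw [Multiset.count_cons_self] at ha
    have hφa : φ a = 0 := by
      apply apply_eq_zero_of_analyticOrderAt_ne_zero
      intro h0
      rw [h0] at ha
      have : ((s.count a + 1 : ℕ) : ℕ∞) = 0 := le_antisymm ha bot_le
      have h' : (s.count a + 1 : ℕ) = 0 := by exact_mod_cast this
      omega
    have hD := dslope_differentiable hφ a
    have hfac : ∀ x, φ x = (x - a) * dslope φ a x := by
      intro x
      have := sub_smul_dslope φ a x
      rw [smul_eq_mul, hφa, sub_zero] at this
      exact this.symm
    have hmul : ∀ w, analyticOrderAt φ w =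
        analyticOrderAt (fun x : ℂ => x - a) w + analyticOrderAt (dslope φ a) w := by
      intro w
      have e : φ = (fun x : ℂ => x - a) * dslope φ a := by
        funext x; exact hfac x
      conv_lhs => rw [e]
      exact analyticOrderAt_mul (by fun_prop) (hD.analyticAt w)
    obtain ⟨h, hh, hfun⟩ := ih (dslope φ a) hD (by
      intro w hw
      by_cases hwa : w = a
      · subst hwa
        rw [hmul w, order_sub_self] at ha
        push_cast at ha
        rw [add_comm] at ha
        exact (ENat.add_le_add_iff_left (by simp)).mp ha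
      · have := hord w (Multiset.mem_cons_of_mem hw)
        rw [Multiset.count_cons_of_ne hwa, hmul w, order_sub_of_ne hwa, zero_add] at this
        exact this)
    refine ⟨h, hh, fun x => ?_⟩
    rw [hfac x, hfun x, nodal_cons, eval_mul, eval_sub, eval_X, eval_C]
    ring

lemma order_of_factor (Z : Multiset ℂ) (w : ℂ) :
    ((Z.count w : ℕ) : ℕ∞) ≤ analyticOrderAt (fun x => (nodal Z).eval x) w := by
  classical
  have hdvd : (X - C w) ^ (Z.count w) ∣ nodal Z := by
    have h1 : Multiset.replicate (Z.count w) w ≤ Z := Multiset.le_count_iff_replicate_le.mp le_rfl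
    obtain ⟨u, hu⟩ := Multiset.le_iff_exists_add.mp h1
    conv_rhs => rw [hu, nodal_add]
    refine ⟨nodal u, ?_⟩
    congr 1
    rw [nodal, Multiset.map_replicate, Multiset.prod_replicate]
  obtain ⟨q, hq⟩ := hdvd
  rw [natCast_le_analyticOrderAt ((nodal Z).differentiable.analyticAt w)]
  refine ⟨fun x => q.eval x, q.differentiable.analyticAt w, Filter.Eventually.of_forall ?_⟩
  intro x
  simp only
  rw [hq, eval_mul, eval_pow, eval_sub, eval_X, eval_C, smul_eq_mul]

/-- the multiset of a list of nodes -/
noncomputable def nodes {n : ℕ} (z : Fin n → ℂ) : Multiset ℂ := Finset.univ.val.map z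

open Classical in
lemma count_nodes {n : ℕ} (z : Fin n → ℂ) (w : ℂ) :
    (nodes z).count w = (Finset.univ.filter (fun j => z j = w)).card := by
  rw [nodes, Multiset.count_map]
  simp only [eq_comm (a := w)]
  rfl

lemma nodal_nodes {n : ℕ} (z : Fin n → ℂ) : nodal (nodes z) = ∏ j : Fin n, (X - C (z j)) := by
  rw [nodal, nodes, Multiset.map_map]
  rfl

lemma card_nodes {n : ℕ} (z : Fin n → ℂ) : Multiset.card (nodes z) = n := by
  simp [nodes]

open Classical in
/-- the Hermite conditions give an interpolant in our sense -/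
lemma isInt_of_conditions {n : ℕ} (z : Fin n → ℂ) {g : ℂ → ℂ} (hg : Differentiable ℂ g)
    {p : Polynomial ℂ} (hdeg : p.degree < (n : WithBot ℕ))
    (hp : ∀ j : Fin n, ∀ i : ℕ, i < (Finset.univ.filter (fun l => z l = z j)).card →
          iteratedDeriv i (fun x => p.eval x) (z j) = iteratedDeriv i g (z j)) :
    ∃ h, IsInt (nodes z) g p h := by
  have hφ : Differentiable ℂ (fun x => g x - p.eval x) := hg.sub p.differentiable
  obtain ⟨h, hh, hfun⟩ := factor_of_order (nodes z) (fun x => g x - p.eval x) hφ (by
    intro w hw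
    rw [nodes, Multiset.mem_map] at hw
    obtain ⟨j, -, rfl⟩ := hw
    rw [natCast_le_analyticOrderAt_iff_iteratedDeriv_eq_zero (hφ.analyticAt _)]
    intro i hi
    rw [count_nodes] at hi
    rw [iteratedDeriv_sub_eval hg, hp j i (by convert hi), sub_self])
  refine ⟨h, ⟨by rwa [card_nodes], hh, fun x => ?_⟩⟩
  have := hfun x
  linear_combination this

end Pool.Agent.Work.MP_987215_an
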