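import Pool.Agent.Work.MP_987215_an.Move

/-! Conjugate pairs: signs of the coefficients and the main induction. -/

namespace Pool.Agent.Work.MP_987215_an

open Polynomial

/-- the real quadratic polynomial with roots `z` and its conjugate -/
noncomputable def quad (z : ℂ) : Polynomial ℝ := X ^ 2 - C (2 * z.re) * X + C (z.re ^ 2 + z.im ^ 2)

/-- product of the quadratics of a multiset of pairs -/
noncomputable def pairPoly (L : Multiset ℂ) : Polynomial ℝ := (L.map quad).prod

/-- the multiset of nodes of a multiset of pairs -/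
noncomputable def dbl (L : Multiset ℂ) : Multiset ℂ := L + L.map (starRingEnd ℂ)

lemma card_dbl (L : Multiset ℂ) : Multiset.card (dbl L) = 2 * Multiset.card L := by
  simp [dbl, two_mul]

lemma dbl_cons (z : ℂ) (L : Multiset ℂ) :
    dbl (z ::ₘ L) = starRingEnd ℂ z ::ₘ z ::ₘ dbl L := by
  simp only [dbl, Multiset.map_cons, Multiset.cons_add, Multiset.add_cons]

lemma pairPoly_cons (z : ℂ) (L : Multiset ℂ) : pairPoly (z ::ₘ L) = quad z * pairPoly L := by
  simp [pairPoly]

lemma pairPoly_zero : pairPoly 0 = 1 := by simp [pairPoly]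

lemma quad_map (z : ℂ) : (quad z).map Complex.ofRealHom = (X - C (starRingEnd ℂ z)) * (X - C z) := by
  have h1 : (C z + C (starRingEnd ℂ z) : Polynomial ℂ) = C ((2 * z.re : ℝ) : ℂ) := by
    rw [← C_add, Complex.add_conj]
  have h2 : (C z * C (starRingEnd ℂ z) : Polynomial ℂ) = C ((z.re ^ 2 + z.im ^ 2 : ℝ) : ℂ) := by
    rw [← C_mul, Complex.mul_conj, Complex.normSq_apply]
    congr 2
    ring
  rw [quad]
  simp only [Polynomial.map_add, Polynomial.map_sub, Polynomial.map_mul, Polynomial.map_pow,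
    map_X, map_C, Complex.ofRealHom_eq_coe]
  rw [← h1, ← h2]
  ring

lemma nodal_dbl (L : Multiset ℂ) : nodal (dbl L) = (pairPoly L).map Complex.ofRealHom := by
  induction L using Multiset.induction_on with
  | empty => simp [dbl, pairPoly_zero, nodal_zero]
  | cons z L ih =>
    rw [dbl_cons, nodal_cons, nodal_cons, ih, pairPoly_cons, Polynomial.map_mul, quad_map]
    ring

lemma quad_mul (z : ℂ) (P : Polynomial ℝ) : quad z * P =
    X ^ 2 * P - C (2 * z.re) * (X * P) + C (z.re ^ 2 + z.im ^ 2) * P := by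
  rw [quad]; ring

lemma coeff_quad_mul_zero (z : ℂ) (P : Polynomial ℝ) :
    (quad z * P).coeff 0 = (z.re ^ 2 + z.im ^ 2) * P.coeff 0 := by
  rw [quad_mul, coeff_add, coeff_sub, coeff_C_mul, coeff_C_mul, coeff_X_pow_mul']
  simp

lemma coeff_quad_mul_one (z : ℂ) (P : Polynomial ℝ) :
    (quad z * P).coeff 1 = - (2 * z.re) * P.coeff 0 + (z.re ^ 2 + z.im ^ 2) * P.coeff 1 := by
  rw [quad_mul, coeff_add, coeff_sub, coeff_C_mul, coeff_C_mul, coeff_X_pow_mul']
  simp [coeff_X_mul]

lemma coeff_quad_mul_add_two (z : ℂ) (P : Polynomial ℝ) (i : ℕ) :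
    (quad z * P).coeff (i + 2) = P.coeff i - (2 * z.re) * P.coeff (i + 1) +
      (z.re ^ 2 + z.im ^ 2) * P.coeff (i + 2) := by
  rw [quad_mul, coeff_add, coeff_sub, coeff_C_mul, coeff_C_mul, coeff_X_pow_mul']
  simp [coeff_X_mul]

/-- sign pattern of the coefficients -/
lemma sign_pattern (L : Multiset ℂ) (hL : ∀ z ∈ L, 0 ≤ z.re) :
    (∀ i, 0 ≤ (pairPoly L).coeff (2 * i)) ∧ (∀ i, (pairPoly L).coeff (2 * i + 1) ≤ 0) ∧
    (∀ i, (pairPoly L).coeff (2 * i + 2) = 0 → (pairPoly L).coeff (2 * i + 1) = 0) := by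
  induction L using Multiset.induction_on with
  | empty =>
    rw [pairPoly_zero]
    refine ⟨fun i => ?_, fun i => ?_, fun i => ?_⟩
    · rw [coeff_one]; split_ifs <;> norm_num
    · rw [coeff_one]; simp
    · intro _; rw [coeff_one]; simp
  | cons z L ih =>
    obtain ⟨h1, h2, h3⟩ := ih (fun w hw => hL w (Multiset.mem_cons_of_mem hw))
    have hx : 0 ≤ z.re := hL z (Multiset.mem_cons_self z L)
    have hρ : 0 ≤ z.re ^ 2 + z.im ^ 2 := by positivity
    set P := pairPoly L
    rw [pairPoly_cons]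
    refine ⟨fun i => ?_, fun i => ?_, fun i => ?_⟩
    · rcases i with _ | i
      · rw [mul_zero, coeff_quad_mul_zero]
        exact mul_nonneg hρ (h1 0)
      · rw [show 2 * (i + 1) = 2 * i + 2 by ring, coeff_quad_mul_add_two]
        have a1 := h1 i
        have a2 := h2 i
        have a3 := h1 (i + 1)
        rw [show 2 * (i + 1) = 2 * i + 2 by ring] at a3
        have b2 := mul_nonneg hx (neg_nonneg.mpr a2)
        have b3 := mul_nonneg hρ a3
        nlinarith
    · rcases i with _ | i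
      · rw [mul_zero, zero_add, coeff_quad_mul_one]
        have a1 := h1 0
        have a2 := h2 0
        rw [mul_zero] at a1
        rw [mul_zero, zero_add] at a2
        have b1 := mul_nonneg hx a1
        have b2 := mul_nonneg hρ (neg_nonneg.mpr a2)
        nlinarith
      · rw [show 2 * (i + 1) + 1 = (2 * i + 1) + 2 by ring, coeff_quad_mul_add_two]
        have a1 := h2 i
        have a2 := h1 (i + 1)
        have a3 := h2 (i + 1)
        rw [show 2 * (i + 1) = 2 * i + 1 + 1 by ring] at a2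
        rw [show 2 * (i + 1) + 1 = 2 * i + 1 + 2 by ring] at a3
        have b2 := mul_nonneg hx a2
        have b3 := mul_nonneg hρ (neg_nonneg.mpr a3)
        nlinarith
    · intro h
      rw [coeff_quad_mul_add_two] at h
      have a1 := h1 i
      have a2 := h2 i
      have a3 := h1 (i + 1)
      rw [show 2 * (i + 1) = 2 * i + 2 by ring] at a3
      have b2 := mul_nonneg hx (neg_nonneg.mpr a2)
      have b3 := mul_nonneg hρ a3
      have e1 : P.coeff (2 * i) = 0 := by nlinarith
      have e2 : z.re * P.coeff (2 * i + 1) = 0 := by nlinarith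
      have e3 : (z.re ^ 2 + z.im ^ 2) * P.coeff (2 * i + 2) = 0 := by nlinarith
      have e4 : (z.re ^ 2 + z.im ^ 2) * P.coeff (2 * i + 1) = 0 := by
        rcases mul_eq_zero.mp e3 with h0 | h0
        · rw [h0, zero_mul]
        · rw [h3 i h0, mul_zero]
      rcases i with _ | i
      · rw [mul_zero, zero_add, coeff_quad_mul_one]
        rw [mul_zero] at e1
        rw [mul_zero, zero_add] at e4
        rw [e1, e4]; ring
      · rw [show 2 * (i + 1) + 1 = (2 * i + 1) + 2 by ring, coeff_quad_mul_add_two]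
        rw [show 2 * (i + 1) = 2 * i + 2 by ring] at e1
        have e5 := h3 i e1
        rw [show 2 * (i + 1) + 1 = 2 * i + 1 + 2 by ring] at e4
        rw [e5, show 2 * i + 1 + 1 = 2 * i + 2 by ring, e1, e4]
        ring

/-- if all pairs are purely imaginary the odd coefficients vanish -/
lemma odd_coeff (L : Multiset ℂ) (hL : ∀ z ∈ L, z.re = 0) :
    ∀ i, (pairPoly L).coeff (2 * i + 1) = 0 := by
  induction L using Multiset.induction_on with
  | empty =>
    intro i
    rw [pairPoly_zero, coeff_one]; simp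
  | cons z L ih =>
    have h2 := ih (fun w hw => hL w (Multiset.mem_cons_of_mem hw))
    have hx : z.re = 0 := hL z (Multiset.mem_cons_self z L)
    intro i
    rw [pairPoly_cons]
    rcases i with _ | i
    · rw [mul_zero, zero_add, coeff_quad_mul_one, hx]
      have a2 := h2 0
      rw [mul_zero, zero_add] at a2
      rw [a2]; ring
    · rw [show 2 * (i + 1) + 1 = (2 * i + 1) + 2 by ring, coeff_quad_mul_add_two, hx, h2 i]
      have a3 := h2 (i + 1)
      rw [show 2 * (i + 1) + 1 = 2 * i + 1 + 2 by ring] at a3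
      rw [a3]; ring

/-- the bound for the `k`-th derivative at zero of the error, for a multiset of pairs -/
def Good (k : ℕ) (g : ℂ → ℂ) (M : ℝ) (L : Multiset ℂ) : Prop :=
  ∀ p h, IsInt (dbl L) g p h →
    ‖iteratedDeriv k g 0 - k.factorial * p.coeff k‖ ≤
      k.factorial * (pairPoly L).coeff k * M / (2 * Multiset.card L).factorial

lemma step {g : ℂ → ℂ} (hg : Differentiable ℂ g) {K : Set ℂ} (hK : Convex ℝ K)
    (hKc : ∀ u ∈ K, starRingEnd ℂ u ∈ K) {M : ℝ} {k : ℕ} (A : Multiset ℂ)
    (hM : ∀ u ∈ K, ‖iteratedDeriv (2 + 2 * Multiset.card A) g u‖ ≤ M)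
    (hA : ∀ a ∈ A, a ∈ K) (z : ℂ) {κ s : ℝ} (hs0 : 0 ≤ s) (hs1 : s ≤ 1)
    (hz : z ∈ K) (hw : (κ : ℂ) + s * (z - κ) ∈ K)
    (hc0 : 0 ≤ (pairPoly A).coeff k)
    (hc : (X * pairPoly A).coeff k = κ * (pairPoly A).coeff k)
    (hgood : Good k g M (((κ : ℂ) + s * (z - κ)) ::ₘ A)) : Good k g M (z ::ₘ A) := by
  have hA2 : ∀ a ∈ dbl A, a ∈ K := by
    intro a ha
    rw [dbl, Multiset.mem_add, Multiset.mem_map] at ha
    rcases ha with ha | ⟨b, hb, rfl⟩
    · exact hA a ha
    · exact hKc b (hA b hb)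
  obtain ⟨pA, G, hI, hb⟩ := exists_isInt hg hK (M := M) (dbl A) hA2 2 (by rwa [card_dbl])
  rw [card_dbl] at hb
  -- interpolants
  have hint : ∀ v : ℂ, IsInt (dbl (v ::ₘ A)) g
      ((pA + C (G v) * nodal (dbl A)) +
        C (dslope G v (starRingEnd ℂ v)) * nodal (v ::ₘ dbl A))
      (dslope (dslope G v) (starRingEnd ℂ v)) := by
    intro v
    rw [dbl_cons]
    exact (hI.cons v).cons _
  have hcoef : ∀ v : ℂ, ((pA + C (G v) * nodal (dbl A)) +
        C (dslope G v (starRingEnd ℂ v)) * nodal (v ::ₘ dbl A)).coeff k =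
      pA.coeff k + ((pairPoly A).coeff k : ℝ) * lin G v κ := by
    intro v
    have e1 : (nodal (dbl A)).coeff k = ((pairPoly A).coeff k : ℝ) := by
      rw [nodal_dbl, coeff_map]; rfl
    have e2 : (X * nodal (dbl A)).coeff k = ((κ * (pairPoly A).coeff k : ℝ) : ℂ) := by
      rw [nodal_dbl, ← hc]
      have : (X : Polynomial ℂ) * (pairPoly A).map Complex.ofRealHom =
          (X * pairPoly A).map Complex.ofRealHom := by
        rw [Polynomial.map_mul, map_X]
      rw [this, coeff_map]; rfl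
    rw [nodal_cons, coeff_add, coeff_add, coeff_C_mul, coeff_C_mul, sub_mul, coeff_sub,
      coeff_C_mul, e1, e2, lin]
    push_cast
    ring
  intro p h hp
  have hpz : p = _ := hp.unique (hint z)
  set w : ℂ := (κ : ℂ) + s * (z - κ) with hwdef
  have hgw := hgood _ _ (hint w)
  rw [hcoef w] at hgw
  rw [hpz, hcoef z]
  have hmove := lin_move hI.diff hK hKc hb (κ := κ) hs0 hs1 hz hw
  rw [← hwdef] at hmove
  set c0 := (pairPoly A).coeff k with hc0def
  have hsplit : iteratedDeriv k g 0 - k.factorial * (pA.coeff k + (c0 : ℂ) * lin G z κ) =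
      (iteratedDeriv k g 0 - k.factorial * (pA.coeff k + (c0 : ℂ) * lin G w κ)) -
        (k.factorial * (c0 : ℂ)) * (lin G z κ - lin G w κ) := by ring
  rw [hsplit]
  refine (norm_sub_le _ _).trans ?_
  rw [norm_mul, norm_mul, Complex.norm_real, Real.norm_of_nonneg hc0, Complex.norm_natCast]
  refine (add_le_add hgw (mul_le_mul_of_nonneg_left hmove (by positivity))).trans (le_of_eq ?_)
  -- the coefficients
  have hck : ∀ v : ℂ, (pairPoly (v ::ₘ A)).coeff k = (X ^ 2 * pairPoly A).coeff k +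
      (v.re ^ 2 + v.im ^ 2 - 2 * κ * v.re) * c0 := by
    intro v
    rw [pairPoly_cons, quad_mul, coeff_add, coeff_sub, coeff_C_mul, coeff_C_mul, hc]
    ring
  rw [hck z, hck w, Multiset.card_cons, Multiset.card_cons]
  have hwre : w.re = κ + s * (z.re - κ) := by simp [hwdef]
  have hwim : w.im = s * z.im := by simp [hwdef]
  have hn : ‖z - (κ : ℂ)‖ ^ 2 = (z.re - κ) ^ 2 + z.im ^ 2 := by
    rw [← Complex.normSq_eq_norm_sq, Complex.normSq_apply]
    simp
    ring
  rw [hwre, hwim, hn, show 2 * (Multiset.card A + 1) = 2 + 2 * Multiset.card A by ring]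
  have hf : ((2 + 2 * Multiset.card A).factorial : ℝ) ≠ 0 := by positivity
  have h2 : (((2 : ℕ).factorial : ℕ) : ℝ) = 2 := by norm_num [Nat.factorial]
  rw [h2]
  field_simp
  ring

end Pool.Agent.Work.MP_987215_an
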